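import Pool.Agent.T2h19.AP.Stm2

set_option autoImplicit false

open MvPolynomial

namespace Pool.Agent.T2h19.AP

theorem cev_detV_formula {R : Type} [CommRing R] (x y : Matrix (Fin 3) (Fin 3) R) (v : Fin 3 → R) :
    detV x y v =
      v 0 * ((x 1 0 * v 0 + x 1 1 * v 1 + x 1 2 * v 2) * (y 2 0 * v 0 + y 2 1 * v 1 + y 2 2 * v 2)
        - (x 2 0 * v 0 + x 2 1 * v 1 + x 2 2 * v 2) * (y 1 0 * v 0 + y 1 1 * v 1 + y 1 2 * v 2))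
      - v 1 * ((x 0 0 * v 0 + x 0 1 * v 1 + x 0 2 * v 2) * (y 2 0 * v 0 + y 2 1 * v 1 + y 2 2 * v 2)
        - (x 2 0 * v 0 + x 2 1 * v 1 + x 2 2 * v 2) * (y 0 0 * v 0 + y 0 1 * v 1 + y 0 2 * v 2))
      + v 2 * ((x 0 0 * v 0 + x 0 1 * v 1 + x 0 2 * v 2) * (y 1 0 * v 0 + y 1 1 * v 1 + y 1 2 * v 2)
        - (x 1 0 * v 0 + x 1 1 * v 1 + x 1 2 * v 2) * (y 0 0 * v 0 + y 0 1 * v 1 + y 0 2 * v 2)) := by
  unfold detV
  rw [Matrix.det_fin_three]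
  simp [Matrix.mulVec, dotProduct, Fin.sum_univ_three]
  ring

theorem cev_detF_formula {R : Type} [CommRing R] (x y : Matrix (Fin 3) (Fin 3) R) (f : Fin 3 → R) :
    detF x y f =
      f 0 * ((f 0 * x 0 1 + f 1 * x 1 1 + f 2 * x 2 1) * (f 0 * y 0 2 + f 1 * y 1 2 + f 2 * y 2 2)
        - (f 0 * x 0 2 + f 1 * x 1 2 + f 2 * x 2 2) * (f 0 * y 0 1 + f 1 * y 1 1 + f 2 * y 2 1))
      - f 1 * ((f 0 * x 0 0 + f 1 * x 1 0 + f 2 * x 2 0) * (f 0 * y 0 2 + f 1 * y 1 2 + f 2 * y 2 2)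
        - (f 0 * x 0 2 + f 1 * x 1 2 + f 2 * x 2 2) * (f 0 * y 0 0 + f 1 * y 1 0 + f 2 * y 2 0))
      + f 2 * ((f 0 * x 0 0 + f 1 * x 1 0 + f 2 * x 2 0) * (f 0 * y 0 1 + f 1 * y 1 1 + f 2 * y 2 1)
        - (f 0 * x 0 1 + f 1 * x 1 1 + f 2 * x 2 1) * (f 0 * y 0 0 + f 1 * y 1 0 + f 2 * y 2 0)) := by
  unfold detF
  rw [Matrix.det_fin_three]
  simp [Matrix.vecMul, dotProduct, Fin.sum_univ_three]
  ring

theorem cev_ : S_CEV := by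
  intro v u
  constructor
  · unfold cV
    rw [cev_detV_formula, cev_detV_formula]
    simp [mA, mB]
  · unfold cF
    rw [cev_detF_formula, cev_detF_formula]
    simp [mA, mB]

end Pool.Agent.T2h19.AP
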