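import Pool.Agent.T2h19.AP.Stm2

set_option autoImplicit false

open MvPolynomial

namespace Pool.Agent.T2h19.AP

/-- The equations of the cone. -/
def clsS : Set (MvPolynomial I4 ℂ) :=
  {F | (∃ p p', F = X (p, p') + X (p', p)) ∨
    (∃ p p' r r', F = X (p, p') * X (r, r') - X (p, r) * X (p', r') + X (p, r') * X (p', r)) ∨
    (∃ p, F = ∑ i : Fin 3, X ((i, i), p)) ∨
    ∃ i k, F = ∑ j : Fin 3, X ((i, j), (j, k))}

theorem cls_ : S_CLS := by
  refine ⟨clsS, ?_⟩
  ext z
  constructor
  · rintro ⟨x, y, hx, hy, hxy, rfl⟩ F hF
    rcases hF with ⟨p, p', rfl⟩ | ⟨p, p', r, r', rfl⟩ | ⟨p, rfl⟩ | ⟨i, k, rfl⟩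
    · simp only [map_add, eval_X, wedge]
      ring
    · simp only [map_add, map_sub, map_mul, eval_X, wedge]
      ring
    · simp only [map_sum, eval_X, wedge]
      rw [Finset.sum_sub_distrib, ← Finset.sum_mul, ← Finset.sum_mul]
      have h1 : ∑ i, x i i = 0 := hx
      have h2 : ∑ i, y i i = 0 := hy
      rw [h1, h2]
      ring
    · simp only [map_sum, eval_X, wedge]
      rw [Finset.sum_sub_distrib]
      have h1 : (x * y) i k = ∑ j, x i j * y j k := Matrix.mul_apply
      have h2 : (y * x) i k = ∑ j, y i j * x j k := Matrix.mul_apply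
      rw [← h1, ← h2, hxy, sub_self]
  · intro hz
    by_cases h0 : z = 0
    · refine ⟨0, 0, by simp, by simp, by simp, ?_⟩
      rw [h0]
      funext p
      simp [wedge]
    · have hE1 : ∀ p p', z (p, p') = - z (p', p) := by
        intro p p'
        have := hz _ (Or.inl ⟨p, p', rfl⟩)
        simp only [map_add, eval_X] at this
        linear_combination this
      have hE2 : ∀ p p' r r', z (p, p') * z (r, r') = z (p, r) * z (p', r') - z (p, r') * z (p', r) := by
        intro p p' r r'
        have := hz _ (Or.inr (Or.inl ⟨p, p', r, r', rfl⟩))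
        simp only [map_add, map_sub, map_mul, eval_X] at this
        linear_combination this
      have hE3 : ∀ p, ∑ i : Fin 3, z ((i, i), p) = 0 := by
        intro p
        have := hz _ (Or.inr (Or.inr (Or.inl ⟨p, rfl⟩)))
        simpa using this
      have hE4 : ∀ i k, ∑ j : Fin 3, z ((i, j), (j, k)) = 0 := by
        intro i k
        have := hz _ (Or.inr (Or.inr (Or.inr ⟨i, k, rfl⟩)))
        simpa using this
      obtain ⟨⟨p, p'⟩, hp⟩ : ∃ q, z q ≠ 0 := by
        by_contra hcon
        push Not at hcon
        exact h0 (funext hcon)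
      set c := z (p, p') with hc
      have hzw : z = wedge (Matrix.of fun i j => z ((i, j), p') / c) (Matrix.of fun i j => z (p, (i, j))) := by
        funext q
        obtain ⟨⟨i, j⟩, ⟨k, l⟩⟩ := q
        simp only [wedge, Matrix.of_apply]
        have h2 := hE2 p p' (i, j) (k, l)
        have h3 := hE1 p' (k, l)
        have h4 := hE1 p' (i, j)
        rw [h3, h4, ← hc] at h2
        field_simp
        linear_combination h2
      refine ⟨_, _, ?_, ?_, ?_, hzw⟩
      · have := hE3 p'
        rw [Matrix.trace]
        simp only [Matrix.diag, Matrix.of_apply]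
        rw [← Finset.sum_div, this, zero_div]
      · have := hE3 p
        rw [Matrix.trace]
        simp only [Matrix.diag, Matrix.of_apply]
        have h2 : ∀ i : Fin 3, z (p, (i, i)) = - z ((i, i), p) := fun i => hE1 _ _
        simp only [h2, Finset.sum_neg_distrib, this, neg_zero]
      · ext i k
        have := hE4 i k
        rw [hzw] at this
        simp only [wedge, Finset.sum_sub_distrib] at this
        rw [Matrix.mul_apply, Matrix.mul_apply]
        linear_combination this

end Pool.Agent.T2h19.AP
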