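import Pool.Agent.T2h41.AP.CEV

set_option autoImplicit false

open MvPolynomial

namespace Pool.Agent.T2h19.AP

theorem cnz_ (h1 : S_CEV) : S_CNZ := by
  constructor
  · intro v hv h0
    have key : ∀ u : Fin 6 → ℂ, detV (mA u) (mB u) v = 0 := by
      intro u
      rw [← (h1 v u).1, h0, map_zero]
    have e0 : v 0 = 0 := by
      have := key ![0, 0, 0, 0, 0, 0]
      rw [cev_detV_formula] at this
      simp [mA, mB] at this
      exact this
    have e1 := key ![0, 1, 0, 0, 1, 0]
    have e2 := key ![0, 1, 0, 0, -1, 0]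
    rw [cev_detV_formula] at e1 e2
    simp [mA, mB, e0] at e1 e2
    have e3 : v 1 ^ 3 = 0 := by linear_combination (1/2) * e1 - (1/2) * e2
    have e4 : v 2 ^ 3 = 0 := by linear_combination (1/2) * e1 + (1/2) * e2
    have e5 : v 1 = 0 := by simpa using e3
    have e6 : v 2 = 0 := by simpa using e4
    apply hv
    funext i
    fin_cases i <;> simp [e0, e5, e6]
  · intro f hf h0
    have key : ∀ u : Fin 6 → ℂ, detF (mA u) (mB u) f = 0 := by
      intro u
      rw [← (h1 f u).2, h0, map_zero]
    have e0 := key ![0, 0, 0, 0, 1, 0]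
    have e1 := key ![0, 1, 0, 0, 0, 0]
    have e2 := key ![0, 1, 1, 0, 0, 0]
    rw [cev_detF_formula] at e0 e1 e2
    simp [mA, mB] at e0 e1 e2
    rw [e0, e1] at e2
    have e3 : f 0 ^ 3 = 0 := by linear_combination e2
    have e4 : f 0 = 0 := by simpa using e3
    apply hf
    funext i
    fin_cases i <;> simp [e0, e1, e4]

end Pool.Agent.T2h19.AP
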