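import Pool.Agent.T2h41.AP.CEV

set_option autoImplicit false

open MvPolynomial

namespace Pool.Agent.T2h19.AP

theorem cp2_cF : cF ![0, 0, 1] = - (X 1 : MvPolynomial (Fin 6) ℂ) := by
  unfold cF
  rw [cev_detF_formula]
  simp [mA, mB]

theorem cp2_ : S_CP2 := by
  unfold S_CP2
  rw [cp2_cF]
  have hnd : ¬ (X 1 : MvPolynomial (Fin 6) ℂ) ∣ cV ![0, 1, 0] := by
    rintro ⟨g, hg⟩
    have h1 := (cev_ ![0, 1, 0] ![0, 0, 0, 1, 0, 0]).1
    rw [hg, cev_detV_formula] at h1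
    simp [mA, mB] at h1
  have hirr : Irreducible (X 1 : MvPolynomial (Fin 6) ℂ) := X_prime.irreducible
  intro d hd1 hd2
  rw [dvd_neg] at hd2
  rcases hirr.dvd_iff.1 hd2 with h | h
  · exact h
  · exact absurd (h.dvd.trans hd1) hnd

end Pool.Agent.T2h19.AP
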