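import Pool.Agent.T2h41.AP.CEV

set_option autoImplicit false

open MvPolynomial

namespace Pool.Agent.T2h19.AP

theorem cpa_scale (c : ℂ) (f : Fin 3 → ℂ) : cF (c • f) = C (c ^ 3) * cF f := by
  unfold cF
  rw [cev_detF_formula, cev_detF_formula]
  simp only [Pi.smul_apply, smul_eq_mul, map_mul, map_pow]
  ring

theorem cpa_unit {c : ℂ} (hc : c ≠ 0) {p q : MvPolynomial (Fin 6) ℂ} (h : IsRelPrime p q) :
    IsRelPrime p (C (c ^ 3) * q) := by
  have hu : IsUnit (C (c ^ 3) : MvPolynomial (Fin 6) ℂ) :=
    (isUnit_iff_ne_zero.2 (pow_ne_zero 3 hc)).map C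
  intro d hd1 hd2
  exact h hd1 (hu.dvd_mul_left.1 hd2)

theorem cpa_ (h1 : S_CPR) (h2 : S_CP2) (h3 : S_CP3) (_h4 : S_CEV) : S_CPA := by
  intro v f hv hf hfv
  rw [Fin.sum_univ_three] at hfv
  by_cases h0 : v 1 = 0 ∧ v 2 = 0
  · obtain ⟨e1, e2⟩ := h0
    have e0 : v 0 ≠ 0 := by
      intro e0
      apply hv
      funext i
      fin_cases i <;> simp [e0, e1, e2]
    have hu : cV v = C (v 0 ^ 3) := by
      unfold cV
      rw [cev_detV_formula]
      simp [mA, mB, e1, e2]
      ring
    rw [hu]
    exact IsUnit.isRelPrime_left ((isUnit_iff_ne_zero.2 (pow_ne_zero 3 e0)).map C)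
  · obtain ⟨r1, r2, hD⟩ : ∃ r1 r2 : ℂ, v 1 * r2 - v 2 * r1 ≠ 0 := by
      by_cases e1 : v 1 = 0
      · have e2 : v 2 ≠ 0 := fun e2 => h0 ⟨e1, e2⟩
        exact ⟨1, 0, by simpa [e1] using e2⟩
      · exact ⟨0, 1, by simpa using e1⟩
    set D := v 1 * r2 - v 2 * r1 with hDdef
    have main : ∀ r0 : ℂ,
        IsRelPrime (cV ![0, 1, 0]) (cF ![f 0, 0, f 0 * r0 + f 1 * r1 + f 2 * r2]) →
        IsRelPrime (cV v) (cF f) := by
      intro r0 hrel
      set k' : M3 := !![1, v 0, r0; 0, v 1, r1; 0, v 2, r2] with hk'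
      set k : M3 := !![1, (r0 * v 2 - v 0 * r2) / D, (v 0 * r1 - r0 * v 1) / D;
        0, r2 / D, -r1 / D; 0, -v 2 / D, v 1 / D] with hk
      have hkk' : k' * k = 1 := by
        ext i j
        fin_cases i <;> fin_cases j <;>
          simp [hk, hk', Matrix.mul_apply, Fin.sum_univ_three] <;> field_simp <;>
          (try rw [hDdef]) <;> ring
      have hk'k : k * k' = 1 := mul_eq_one_comm.1 hkk'
      have hcol : ∀ i, k i 0 = if i = 0 then 1 else 0 := by
        intro i
        fin_cases i <;> simp [hk]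
      have h5 := h1 k k' hk'k hkk' hcol ![0, 1, 0] (Matrix.vecMul f k') (by
        convert hrel using 2
        funext i
        fin_cases i
        · simp [hk', Matrix.vecMul, dotProduct, Fin.sum_univ_three]
        · simp [hk', Matrix.vecMul, dotProduct, Fin.sum_univ_three]
          exact hfv
        · simp [hk', Matrix.vecMul, dotProduct, Fin.sum_univ_three])
      rw [Matrix.vecMul_vecMul, hkk', Matrix.vecMul_one] at h5
      convert h5 using 2
      funext i
      fin_cases i <;> simp [hk', Matrix.mulVec, dotProduct, Fin.sum_univ_three]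
    by_cases hf0 : f 0 = 0
    · have hc : f 1 * r1 + f 2 * r2 ≠ 0 := by
        intro hc
        apply hf
        have e1 : f 1 = 0 := by
          have : D * f 1 = 0 := by
            rw [hDdef]
            rw [hf0] at hfv
            linear_combination r2 * hfv - v 2 * hc
          exact (mul_eq_zero.1 this).resolve_left hD
        have e2 : f 2 = 0 := by
          have : D * f 2 = 0 := by
            rw [hDdef]
            rw [hf0] at hfv
            linear_combination -r1 * hfv + v 1 * hc
          exact (mul_eq_zero.1 this).resolve_left hD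
        funext i
        fin_cases i <;> simp [hf0, e1, e2]
      apply main 0
      have e : (![f 0, 0, f 0 * 0 + f 1 * r1 + f 2 * r2] : Fin 3 → ℂ) =
          (f 1 * r1 + f 2 * r2) • ![0, 0, 1] := by
        funext i
        fin_cases i <;> simp [hf0]
      rw [e, cpa_scale]
      exact cpa_unit hc h2
    · apply main (-(f 1 * r1 + f 2 * r2) / f 0)
      have e : (![f 0, 0, f 0 * (-(f 1 * r1 + f 2 * r2) / f 0) + f 1 * r1 + f 2 * r2] :
          Fin 3 → ℂ) = f 0 • ![1, 0, 0] := by
        funext i
        fin_cases i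
        · simp
        · simp
        · simp
          field_simp
          ring
      rw [e, cpa_scale]
      exact cpa_unit hf0 h3

end Pool.Agent.T2h19.AP
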