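import Pool.Agent.T2h41.AP.CEV

set_option autoImplicit false

open MvPolynomial

namespace Pool.Agent.T2h19.AP

/-- The values of `detV`, with the coordinates of the vector as variables. -/
def cycV (x y : M3) (a b c : ℂ) : ℂ :=
  a * ((x 1 0 * a + x 1 1 * b + x 1 2 * c) * (y 2 0 * a + y 2 1 * b + y 2 2 * c)
    - (x 2 0 * a + x 2 1 * b + x 2 2 * c) * (y 1 0 * a + y 1 1 * b + y 1 2 * c))
  - b * ((x 0 0 * a + x 0 1 * b + x 0 2 * c) * (y 2 0 * a + y 2 1 * b + y 2 2 * c)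
    - (x 2 0 * a + x 2 1 * b + x 2 2 * c) * (y 0 0 * a + y 0 1 * b + y 0 2 * c))
  + c * ((x 0 0 * a + x 0 1 * b + x 0 2 * c) * (y 1 0 * a + y 1 1 * b + y 1 2 * c)
    - (x 1 0 * a + x 1 1 * b + x 1 2 * c) * (y 0 0 * a + y 0 1 * b + y 0 2 * c))

/-- The values of `detF`, with the coordinates of the covector as variables. -/
def cycF (x y : M3) (a b c : ℂ) : ℂ :=
  a * ((a * x 0 1 + b * x 1 1 + c * x 2 1) * (a * y 0 2 + b * y 1 2 + c * y 2 2)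
    - (a * x 0 2 + b * x 1 2 + c * x 2 2) * (a * y 0 1 + b * y 1 1 + c * y 2 1))
  - b * ((a * x 0 0 + b * x 1 0 + c * x 2 0) * (a * y 0 2 + b * y 1 2 + c * y 2 2)
    - (a * x 0 2 + b * x 1 2 + c * x 2 2) * (a * y 0 0 + b * y 1 0 + c * y 2 0))
  + c * ((a * x 0 0 + b * x 1 0 + c * x 2 0) * (a * y 0 1 + b * y 1 1 + c * y 2 1)
    - (a * x 0 1 + b * x 1 1 + c * x 2 1) * (a * y 0 0 + b * y 1 0 + c * y 2 0))

theorem cyc_00_01 (x y : M3) (hx : x 0 0 + x 1 1 + x 2 2 = 0) (hy : y 0 0 + y 1 1 + y 2 2 = 0)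
    (K : ∀ i k, x i 0 * y 0 k + x i 1 * y 1 k + x i 2 * y 2 k =
      y i 0 * x 0 k + y i 1 * x 1 k + y i 2 * x 2 k)
    (hV : ∀ a b c : ℂ, cycV x y a b c = 0) (hF : ∀ a b c : ℂ, cycF x y a b c = 0) :
    x 0 0 * y 0 1 - y 0 0 * x 0 1 = 0 := by
  unfold cycV at hV
  unfold cycF at hF
  linear_combination (1/3) * (y 0 1 * hx - x 0 1 * hy) + (1/3) * (K 0 1) + (-1/3) * (hF (0) (0) (1)) + (1/6) * (hF (1) (0) (1)) + (-1/6) * (hF (1) (0) (-1))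

theorem cyc_00_02 (x y : M3) (hx : x 0 0 + x 1 1 + x 2 2 = 0) (hy : y 0 0 + y 1 1 + y 2 2 = 0)
    (K : ∀ i k, x i 0 * y 0 k + x i 1 * y 1 k + x i 2 * y 2 k =
      y i 0 * x 0 k + y i 1 * x 1 k + y i 2 * x 2 k)
    (hV : ∀ a b c : ℂ, cycV x y a b c = 0) (hF : ∀ a b c : ℂ, cycF x y a b c = 0) :
    x 0 0 * y 0 2 - y 0 0 * x 0 2 = 0 := by
  unfold cycV at hV
  unfold cycF at hF
  linear_combination (1/3) * (y 0 2 * hx - x 0 2 * hy) + (1/3) * (K 0 2) + (1/3) * (hF (0) (1) (0)) + (-1/6) * (hF (1) (1) (0)) + (1/6) * (hF (1) (-1) (0))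

theorem cyc_00_10 (x y : M3) (hx : x 0 0 + x 1 1 + x 2 2 = 0) (hy : y 0 0 + y 1 1 + y 2 2 = 0)
    (K : ∀ i k, x i 0 * y 0 k + x i 1 * y 1 k + x i 2 * y 2 k =
      y i 0 * x 0 k + y i 1 * x 1 k + y i 2 * x 2 k)
    (hV : ∀ a b c : ℂ, cycV x y a b c = 0) (hF : ∀ a b c : ℂ, cycF x y a b c = 0) :
    x 0 0 * y 1 0 - y 0 0 * x 1 0 = 0 := by
  unfold cycV at hV
  unfold cycF at hF
  linear_combination (1/3) * (y 1 0 * hx - x 1 0 * hy) + (-1/3) * (K 1 0) + (-1/3) * (hV (0) (0) (1)) + (1/6) * (hV (1) (0) (1)) + (-1/6) * (hV (1) (0) (-1))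

theorem cyc_00_11 (x y : M3) (hx : x 0 0 + x 1 1 + x 2 2 = 0) (hy : y 0 0 + y 1 1 + y 2 2 = 0)
    (K : ∀ i k, x i 0 * y 0 k + x i 1 * y 1 k + x i 2 * y 2 k =
      y i 0 * x 0 k + y i 1 * x 1 k + y i 2 * x 2 k)
    (hV : ∀ a b c : ℂ, cycV x y a b c = 0) (hF : ∀ a b c : ℂ, cycF x y a b c = 0) :
    x 0 0 * y 1 1 - y 0 0 * x 1 1 = 0 := by
  unfold cycV at hV
  unfold cycF at hF
  linear_combination (-1/3) * (y 0 0 * hx - x 0 0 * hy) + (1/3) * (y 1 1 * hx - x 1 1 * hy) + (1/6) * (hV (1) (0) (0)) + (1/6) * (hV (0) (1) (0)) + (1/6) * (hV (0) (0) (1)) + (-1/6) * (hV (1) (1) (0)) + (-1/6) * (hV (1) (0) (1)) + (-1/6) * (hV (0) (1) (1)) + (1/6) * (hV (1) (1) (1)) + (1/6) * (hF (1) (0) (0)) + (1/6) * (hF (0) (1) (0)) + (1/6) * (hF (0) (0) (1)) + (-1/6) * (hF (1) (1) (0)) + (-1/6) * (hF (1) (0) (1)) + (-1/6) * (hF (0) (1) (1)) + (1/6) * (hF (1) (1) (1))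

theorem cyc_00_12 (x y : M3) (hx : x 0 0 + x 1 1 + x 2 2 = 0) (hy : y 0 0 + y 1 1 + y 2 2 = 0)
    (K : ∀ i k, x i 0 * y 0 k + x i 1 * y 1 k + x i 2 * y 2 k =
      y i 0 * x 0 k + y i 1 * x 1 k + y i 2 * x 2 k)
    (hV : ∀ a b c : ℂ, cycV x y a b c = 0) (hF : ∀ a b c : ℂ, cycF x y a b c = 0) :
    x 0 0 * y 1 2 - y 0 0 * x 1 2 = 0 := by
  unfold cycV at hV
  unfold cycF at hF
  linear_combination (1/3) * (y 1 2 * hx - x 1 2 * hy) + (-1/3) * (hV (1) (0) (0)) + (1/6) * (hV (1) (0) (1)) + (1/6) * (hV (1) (0) (-1)) + (1/3) * (hF (1) (0) (0)) + (-1/6) * (hF (1) (1) (0)) + (-1/6) * (hF (1) (-1) (0))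

theorem cyc_00_20 (x y : M3) (hx : x 0 0 + x 1 1 + x 2 2 = 0) (hy : y 0 0 + y 1 1 + y 2 2 = 0)
    (K : ∀ i k, x i 0 * y 0 k + x i 1 * y 1 k + x i 2 * y 2 k =
      y i 0 * x 0 k + y i 1 * x 1 k + y i 2 * x 2 k)
    (hV : ∀ a b c : ℂ, cycV x y a b c = 0) (hF : ∀ a b c : ℂ, cycF x y a b c = 0) :
    x 0 0 * y 2 0 - y 0 0 * x 2 0 = 0 := by
  unfold cycV at hV
  unfold cycF at hF
  linear_combination (1/3) * (y 2 0 * hx - x 2 0 * hy) + (-1/3) * (K 2 0) + (1/3) * (hV (0) (1) (0)) + (-1/6) * (hV (1) (1) (0)) + (1/6) * (hV (1) (-1) (0))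

theorem cyc_00_21 (x y : M3) (hx : x 0 0 + x 1 1 + x 2 2 = 0) (hy : y 0 0 + y 1 1 + y 2 2 = 0)
    (K : ∀ i k, x i 0 * y 0 k + x i 1 * y 1 k + x i 2 * y 2 k =
      y i 0 * x 0 k + y i 1 * x 1 k + y i 2 * x 2 k)
    (hV : ∀ a b c : ℂ, cycV x y a b c = 0) (hF : ∀ a b c : ℂ, cycF x y a b c = 0) :
    x 0 0 * y 2 1 - y 0 0 * x 2 1 = 0 := by
  unfold cycV at hV
  unfold cycF at hF
  linear_combination (1/3) * (y 2 1 * hx - x 2 1 * hy) + (1/3) * (hV (1) (0) (0)) + (-1/6) * (hV (1) (1) (0)) + (-1/6) * (hV (1) (-1) (0)) + (-1/3) * (hF (1) (0) (0)) + (1/6) * (hF (1) (0) (1)) + (1/6) * (hF (1) (0) (-1))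

theorem cyc_00_22 (x y : M3) (hx : x 0 0 + x 1 1 + x 2 2 = 0) (hy : y 0 0 + y 1 1 + y 2 2 = 0)
    (K : ∀ i k, x i 0 * y 0 k + x i 1 * y 1 k + x i 2 * y 2 k =
      y i 0 * x 0 k + y i 1 * x 1 k + y i 2 * x 2 k)
    (hV : ∀ a b c : ℂ, cycV x y a b c = 0) (hF : ∀ a b c : ℂ, cycF x y a b c = 0) :
    x 0 0 * y 2 2 - y 0 0 * x 2 2 = 0 := by
  unfold cycV at hV
  unfold cycF at hF
  linear_combination (-2/3) * (y 0 0 * hx - x 0 0 * hy) + (-1/3) * (y 1 1 * hx - x 1 1 * hy) + (-1/6) * (hV (1) (0) (0)) + (-1/6) * (hV (0) (1) (0)) + (-1/6) * (hV (0) (0) (1)) + (1/6) * (hV (1) (1) (0)) + (1/6) * (hV (1) (0) (1)) + (1/6) * (hV (0) (1) (1)) + (-1/6) * (hV (1) (1) (1)) + (-1/6) * (hF (1) (0) (0)) + (-1/6) * (hF (0) (1) (0)) + (-1/6) * (hF (0) (0) (1)) + (1/6) * (hF (1) (1) (0)) + (1/6) * (hF (1) (0) (1)) + (1/6) * (hF (0) (1) (1)) + (-1/6) * (hF (1) (1) (1))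

theorem cyc_01_02 (x y : M3) (hx : x 0 0 + x 1 1 + x 2 2 = 0) (hy : y 0 0 + y 1 1 + y 2 2 = 0)
    (K : ∀ i k, x i 0 * y 0 k + x i 1 * y 1 k + x i 2 * y 2 k =
      y i 0 * x 0 k + y i 1 * x 1 k + y i 2 * x 2 k)
    (hV : ∀ a b c : ℂ, cycV x y a b c = 0) (hF : ∀ a b c : ℂ, cycF x y a b c = 0) :
    x 0 1 * y 0 2 - y 0 1 * x 0 2 = 0 := by
  unfold cycV at hV
  unfold cycF at hF
  linear_combination (1) * (hF (1) (0) (0))

theorem cyc_01_10 (x y : M3) (hx : x 0 0 + x 1 1 + x 2 2 = 0) (hy : y 0 0 + y 1 1 + y 2 2 = 0)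
    (K : ∀ i k, x i 0 * y 0 k + x i 1 * y 1 k + x i 2 * y 2 k =
      y i 0 * x 0 k + y i 1 * x 1 k + y i 2 * x 2 k)
    (hV : ∀ a b c : ℂ, cycV x y a b c = 0) (hF : ∀ a b c : ℂ, cycF x y a b c = 0) :
    x 0 1 * y 1 0 - y 0 1 * x 1 0 = 0 := by
  unfold cycV at hV
  unfold cycF at hF
  linear_combination (1/3) * (K 0 0) + (-1/3) * (K 1 1) + (1/6) * (hV (1) (0) (0)) + (1/6) * (hV (0) (1) (0)) + (1/6) * (hV (0) (0) (1)) + (-1/6) * (hV (1) (1) (0)) + (-1/6) * (hV (1) (0) (1)) + (-1/6) * (hV (0) (1) (1)) + (1/6) * (hV (1) (1) (1)) + (-1/6) * (hF (1) (0) (0)) + (-1/6) * (hF (0) (1) (0)) + (-1/6) * (hF (0) (0) (1)) + (1/6) * (hF (1) (1) (0)) + (1/6) * (hF (1) (0) (1)) + (1/6) * (hF (0) (1) (1)) + (-1/6) * (hF (1) (1) (1))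

theorem cyc_01_11 (x y : M3) (hx : x 0 0 + x 1 1 + x 2 2 = 0) (hy : y 0 0 + y 1 1 + y 2 2 = 0)
    (K : ∀ i k, x i 0 * y 0 k + x i 1 * y 1 k + x i 2 * y 2 k =
      y i 0 * x 0 k + y i 1 * x 1 k + y i 2 * x 2 k)
    (hV : ∀ a b c : ℂ, cycV x y a b c = 0) (hF : ∀ a b c : ℂ, cycF x y a b c = 0) :
    x 0 1 * y 1 1 - y 0 1 * x 1 1 = 0 := by
  unfold cycV at hV
  unfold cycF at hF
  linear_combination (-1/3) * (y 0 1 * hx - x 0 1 * hy) + (1/3) * (K 0 1) + (-1/3) * (hV (0) (0) (1)) + (1/6) * (hV (0) (1) (1)) + (-1/6) * (hV (0) (1) (-1))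

theorem cyc_01_12 (x y : M3) (hx : x 0 0 + x 1 1 + x 2 2 = 0) (hy : y 0 0 + y 1 1 + y 2 2 = 0)
    (K : ∀ i k, x i 0 * y 0 k + x i 1 * y 1 k + x i 2 * y 2 k =
      y i 0 * x 0 k + y i 1 * x 1 k + y i 2 * x 2 k)
    (hV : ∀ a b c : ℂ, cycV x y a b c = 0) (hF : ∀ a b c : ℂ, cycF x y a b c = 0) :
    x 0 1 * y 1 2 - y 0 1 * x 1 2 = 0 := by
  unfold cycV at hV
  unfold cycF at hF
  linear_combination (1/3) * (K 0 2) + (-1/3) * (hV (0) (1) (0)) + (1/6) * (hV (0) (1) (1)) + (1/6) * (hV (0) (1) (-1)) + (-1/3) * (hF (0) (1) (0)) + (1/6) * (hF (1) (1) (0)) + (-1/6) * (hF (1) (-1) (0))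

theorem cyc_01_20 (x y : M3) (hx : x 0 0 + x 1 1 + x 2 2 = 0) (hy : y 0 0 + y 1 1 + y 2 2 = 0)
    (K : ∀ i k, x i 0 * y 0 k + x i 1 * y 1 k + x i 2 * y 2 k =
      y i 0 * x 0 k + y i 1 * x 1 k + y i 2 * x 2 k)
    (hV : ∀ a b c : ℂ, cycV x y a b c = 0) (hF : ∀ a b c : ℂ, cycF x y a b c = 0) :
    x 0 1 * y 2 0 - y 0 1 * x 2 0 = 0 := by
  unfold cycV at hV
  unfold cycF at hF
  linear_combination (-1/3) * (K 2 1) + (1/3) * (hV (1) (0) (0)) + (-1/6) * (hV (1) (1) (0)) + (-1/6) * (hV (1) (-1) (0)) + (1/3) * (hF (1) (0) (0)) + (-1/6) * (hF (1) (0) (1)) + (-1/6) * (hF (1) (0) (-1))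

theorem cyc_01_21 (x y : M3) (hx : x 0 0 + x 1 1 + x 2 2 = 0) (hy : y 0 0 + y 1 1 + y 2 2 = 0)
    (K : ∀ i k, x i 0 * y 0 k + x i 1 * y 1 k + x i 2 * y 2 k =
      y i 0 * x 0 k + y i 1 * x 1 k + y i 2 * x 2 k)
    (hV : ∀ a b c : ℂ, cycV x y a b c = 0) (hF : ∀ a b c : ℂ, cycF x y a b c = 0) :
    x 0 1 * y 2 1 - y 0 1 * x 2 1 = 0 := by
  unfold cycV at hV
  unfold cycF at hF
  linear_combination (-1) * (hV (0) (1) (0))

theorem cyc_01_22 (x y : M3) (hx : x 0 0 + x 1 1 + x 2 2 = 0) (hy : y 0 0 + y 1 1 + y 2 2 = 0)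
    (K : ∀ i k, x i 0 * y 0 k + x i 1 * y 1 k + x i 2 * y 2 k =
      y i 0 * x 0 k + y i 1 * x 1 k + y i 2 * x 2 k)
    (hV : ∀ a b c : ℂ, cycV x y a b c = 0) (hF : ∀ a b c : ℂ, cycF x y a b c = 0) :
    x 0 1 * y 2 2 - y 0 1 * x 2 2 = 0 := by
  unfold cycV at hV
  unfold cycF at hF
  linear_combination (-1/3) * (y 0 1 * hx - x 0 1 * hy) + (1/3) * (hV (0) (0) (1)) + (-1/6) * (hV (0) (1) (1)) + (1/6) * (hV (0) (1) (-1)) + (-1/3) * (hF (0) (0) (1)) + (1/6) * (hF (1) (0) (1)) + (-1/6) * (hF (1) (0) (-1))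

theorem cyc_02_10 (x y : M3) (hx : x 0 0 + x 1 1 + x 2 2 = 0) (hy : y 0 0 + y 1 1 + y 2 2 = 0)
    (K : ∀ i k, x i 0 * y 0 k + x i 1 * y 1 k + x i 2 * y 2 k =
      y i 0 * x 0 k + y i 1 * x 1 k + y i 2 * x 2 k)
    (hV : ∀ a b c : ℂ, cycV x y a b c = 0) (hF : ∀ a b c : ℂ, cycF x y a b c = 0) :
    x 0 2 * y 1 0 - y 0 2 * x 1 0 = 0 := by
  unfold cycV at hV
  unfold cycF at hF
  linear_combination (-1/3) * (K 1 2) + (-1/3) * (hV (1) (0) (0)) + (1/6) * (hV (1) (0) (1)) + (1/6) * (hV (1) (0) (-1)) + (-1/3) * (hF (1) (0) (0)) + (1/6) * (hF (1) (1) (0)) + (1/6) * (hF (1) (-1) (0))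

theorem cyc_02_11 (x y : M3) (hx : x 0 0 + x 1 1 + x 2 2 = 0) (hy : y 0 0 + y 1 1 + y 2 2 = 0)
    (K : ∀ i k, x i 0 * y 0 k + x i 1 * y 1 k + x i 2 * y 2 k =
      y i 0 * x 0 k + y i 1 * x 1 k + y i 2 * x 2 k)
    (hV : ∀ a b c : ℂ, cycV x y a b c = 0) (hF : ∀ a b c : ℂ, cycF x y a b c = 0) :
    x 0 2 * y 1 1 - y 0 2 * x 1 1 = 0 := by
  unfold cycV at hV
  unfold cycF at hF
  linear_combination (-1/3) * (y 0 2 * hx - x 0 2 * hy) + (-1/3) * (hV (0) (1) (0)) + (1/6) * (hV (0) (1) (1)) + (1/6) * (hV (0) (1) (-1)) + (1/3) * (hF (0) (1) (0)) + (-1/6) * (hF (1) (1) (0)) + (1/6) * (hF (1) (-1) (0))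

theorem cyc_02_12 (x y : M3) (hx : x 0 0 + x 1 1 + x 2 2 = 0) (hy : y 0 0 + y 1 1 + y 2 2 = 0)
    (K : ∀ i k, x i 0 * y 0 k + x i 1 * y 1 k + x i 2 * y 2 k =
      y i 0 * x 0 k + y i 1 * x 1 k + y i 2 * x 2 k)
    (hV : ∀ a b c : ℂ, cycV x y a b c = 0) (hF : ∀ a b c : ℂ, cycF x y a b c = 0) :
    x 0 2 * y 1 2 - y 0 2 * x 1 2 = 0 := by
  unfold cycV at hV
  unfold cycF at hF
  linear_combination (1) * (hV (0) (0) (1))

theorem cyc_02_20 (x y : M3) (hx : x 0 0 + x 1 1 + x 2 2 = 0) (hy : y 0 0 + y 1 1 + y 2 2 = 0)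
    (K : ∀ i k, x i 0 * y 0 k + x i 1 * y 1 k + x i 2 * y 2 k =
      y i 0 * x 0 k + y i 1 * x 1 k + y i 2 * x 2 k)
    (hV : ∀ a b c : ℂ, cycV x y a b c = 0) (hF : ∀ a b c : ℂ, cycF x y a b c = 0) :
    x 0 2 * y 2 0 - y 0 2 * x 2 0 = 0 := by
  unfold cycV at hV
  unfold cycF at hF
  linear_combination (2/3) * (K 0 0) + (1/3) * (K 1 1) + (-1/6) * (hV (1) (0) (0)) + (-1/6) * (hV (0) (1) (0)) + (-1/6) * (hV (0) (0) (1)) + (1/6) * (hV (1) (1) (0)) + (1/6) * (hV (1) (0) (1)) + (1/6) * (hV (0) (1) (1)) + (-1/6) * (hV (1) (1) (1)) + (1/6) * (hF (1) (0) (0)) + (1/6) * (hF (0) (1) (0)) + (1/6) * (hF (0) (0) (1)) + (-1/6) * (hF (1) (1) (0)) + (-1/6) * (hF (1) (0) (1)) + (-1/6) * (hF (0) (1) (1)) + (1/6) * (hF (1) (1) (1))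

theorem cyc_02_21 (x y : M3) (hx : x 0 0 + x 1 1 + x 2 2 = 0) (hy : y 0 0 + y 1 1 + y 2 2 = 0)
    (K : ∀ i k, x i 0 * y 0 k + x i 1 * y 1 k + x i 2 * y 2 k =
      y i 0 * x 0 k + y i 1 * x 1 k + y i 2 * x 2 k)
    (hV : ∀ a b c : ℂ, cycV x y a b c = 0) (hF : ∀ a b c : ℂ, cycF x y a b c = 0) :
    x 0 2 * y 2 1 - y 0 2 * x 2 1 = 0 := by
  unfold cycV at hV
  unfold cycF at hF
  linear_combination (1/3) * (K 0 1) + (1/3) * (hV (0) (0) (1)) + (-1/6) * (hV (0) (1) (1)) + (1/6) * (hV (0) (1) (-1)) + (1/3) * (hF (0) (0) (1)) + (-1/6) * (hF (1) (0) (1)) + (1/6) * (hF (1) (0) (-1))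

theorem cyc_02_22 (x y : M3) (hx : x 0 0 + x 1 1 + x 2 2 = 0) (hy : y 0 0 + y 1 1 + y 2 2 = 0)
    (K : ∀ i k, x i 0 * y 0 k + x i 1 * y 1 k + x i 2 * y 2 k =
      y i 0 * x 0 k + y i 1 * x 1 k + y i 2 * x 2 k)
    (hV : ∀ a b c : ℂ, cycV x y a b c = 0) (hF : ∀ a b c : ℂ, cycF x y a b c = 0) :
    x 0 2 * y 2 2 - y 0 2 * x 2 2 = 0 := by
  unfold cycV at hV
  unfold cycF at hF
  linear_combination (-1/3) * (y 0 2 * hx - x 0 2 * hy) + (1/3) * (K 0 2) + (1/3) * (hV (0) (1) (0)) + (-1/6) * (hV (0) (1) (1)) + (-1/6) * (hV (0) (1) (-1))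

theorem cyc_10_11 (x y : M3) (hx : x 0 0 + x 1 1 + x 2 2 = 0) (hy : y 0 0 + y 1 1 + y 2 2 = 0)
    (K : ∀ i k, x i 0 * y 0 k + x i 1 * y 1 k + x i 2 * y 2 k =
      y i 0 * x 0 k + y i 1 * x 1 k + y i 2 * x 2 k)
    (hV : ∀ a b c : ℂ, cycV x y a b c = 0) (hF : ∀ a b c : ℂ, cycF x y a b c = 0) :
    x 1 0 * y 1 1 - y 1 0 * x 1 1 = 0 := by
  unfold cycV at hV
  unfold cycF at hF
  linear_combination (-1/3) * (y 1 0 * hx - x 1 0 * hy) + (-1/3) * (K 1 0) + (-1/3) * (hF (0) (0) (1)) + (1/6) * (hF (0) (1) (1)) + (-1/6) * (hF (0) (1) (-1))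

theorem cyc_10_12 (x y : M3) (hx : x 0 0 + x 1 1 + x 2 2 = 0) (hy : y 0 0 + y 1 1 + y 2 2 = 0)
    (K : ∀ i k, x i 0 * y 0 k + x i 1 * y 1 k + x i 2 * y 2 k =
      y i 0 * x 0 k + y i 1 * x 1 k + y i 2 * x 2 k)
    (hV : ∀ a b c : ℂ, cycV x y a b c = 0) (hF : ∀ a b c : ℂ, cycF x y a b c = 0) :
    x 1 0 * y 1 2 - y 1 0 * x 1 2 = 0 := by
  unfold cycV at hV
  unfold cycF at hF
  linear_combination (-1) * (hF (0) (1) (0))

theorem cyc_10_20 (x y : M3) (hx : x 0 0 + x 1 1 + x 2 2 = 0) (hy : y 0 0 + y 1 1 + y 2 2 = 0)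
    (K : ∀ i k, x i 0 * y 0 k + x i 1 * y 1 k + x i 2 * y 2 k =
      y i 0 * x 0 k + y i 1 * x 1 k + y i 2 * x 2 k)
    (hV : ∀ a b c : ℂ, cycV x y a b c = 0) (hF : ∀ a b c : ℂ, cycF x y a b c = 0) :
    x 1 0 * y 2 0 - y 1 0 * x 2 0 = 0 := by
  unfold cycV at hV
  unfold cycF at hF
  linear_combination (1) * (hV (1) (0) (0))

theorem cyc_10_21 (x y : M3) (hx : x 0 0 + x 1 1 + x 2 2 = 0) (hy : y 0 0 + y 1 1 + y 2 2 = 0)
    (K : ∀ i k, x i 0 * y 0 k + x i 1 * y 1 k + x i 2 * y 2 k =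
      y i 0 * x 0 k + y i 1 * x 1 k + y i 2 * x 2 k)
    (hV : ∀ a b c : ℂ, cycV x y a b c = 0) (hF : ∀ a b c : ℂ, cycF x y a b c = 0) :
    x 1 0 * y 2 1 - y 1 0 * x 2 1 = 0 := by
  unfold cycV at hV
  unfold cycF at hF
  linear_combination (-1/3) * (K 2 0) + (-1/3) * (hV (0) (1) (0)) + (1/6) * (hV (1) (1) (0)) + (-1/6) * (hV (1) (-1) (0)) + (-1/3) * (hF (0) (1) (0)) + (1/6) * (hF (0) (1) (1)) + (1/6) * (hF (0) (1) (-1))

theorem cyc_10_22 (x y : M3) (hx : x 0 0 + x 1 1 + x 2 2 = 0) (hy : y 0 0 + y 1 1 + y 2 2 = 0)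
    (K : ∀ i k, x i 0 * y 0 k + x i 1 * y 1 k + x i 2 * y 2 k =
      y i 0 * x 0 k + y i 1 * x 1 k + y i 2 * x 2 k)
    (hV : ∀ a b c : ℂ, cycV x y a b c = 0) (hF : ∀ a b c : ℂ, cycF x y a b c = 0) :
    x 1 0 * y 2 2 - y 1 0 * x 2 2 = 0 := by
  unfold cycV at hV
  unfold cycF at hF
  linear_combination (-1/3) * (y 1 0 * hx - x 1 0 * hy) + (-1/3) * (hV (0) (0) (1)) + (1/6) * (hV (1) (0) (1)) + (-1/6) * (hV (1) (0) (-1)) + (1/3) * (hF (0) (0) (1)) + (-1/6) * (hF (0) (1) (1)) + (1/6) * (hF (0) (1) (-1))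

theorem cyc_11_12 (x y : M3) (hx : x 0 0 + x 1 1 + x 2 2 = 0) (hy : y 0 0 + y 1 1 + y 2 2 = 0)
    (K : ∀ i k, x i 0 * y 0 k + x i 1 * y 1 k + x i 2 * y 2 k =
      y i 0 * x 0 k + y i 1 * x 1 k + y i 2 * x 2 k)
    (hV : ∀ a b c : ℂ, cycV x y a b c = 0) (hF : ∀ a b c : ℂ, cycF x y a b c = 0) :
    x 1 1 * y 1 2 - y 1 1 * x 1 2 = 0 := by
  unfold cycV at hV
  unfold cycF at hF
  linear_combination (1/3) * (y 1 2 * hx - x 1 2 * hy) + (1/3) * (K 1 2) + (-1/3) * (hF (1) (0) (0)) + (1/6) * (hF (1) (1) (0)) + (1/6) * (hF (1) (-1) (0))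

theorem cyc_11_20 (x y : M3) (hx : x 0 0 + x 1 1 + x 2 2 = 0) (hy : y 0 0 + y 1 1 + y 2 2 = 0)
    (K : ∀ i k, x i 0 * y 0 k + x i 1 * y 1 k + x i 2 * y 2 k =
      y i 0 * x 0 k + y i 1 * x 1 k + y i 2 * x 2 k)
    (hV : ∀ a b c : ℂ, cycV x y a b c = 0) (hF : ∀ a b c : ℂ, cycF x y a b c = 0) :
    x 1 1 * y 2 0 - y 1 1 * x 2 0 = 0 := by
  unfold cycV at hV
  unfold cycF at hF
  linear_combination (1/3) * (y 2 0 * hx - x 2 0 * hy) + (-1/3) * (hV (0) (1) (0)) + (1/6) * (hV (1) (1) (0)) + (-1/6) * (hV (1) (-1) (0)) + (1/3) * (hF (0) (1) (0)) + (-1/6) * (hF (0) (1) (1)) + (-1/6) * (hF (0) (1) (-1))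

theorem cyc_11_21 (x y : M3) (hx : x 0 0 + x 1 1 + x 2 2 = 0) (hy : y 0 0 + y 1 1 + y 2 2 = 0)
    (K : ∀ i k, x i 0 * y 0 k + x i 1 * y 1 k + x i 2 * y 2 k =
      y i 0 * x 0 k + y i 1 * x 1 k + y i 2 * x 2 k)
    (hV : ∀ a b c : ℂ, cycV x y a b c = 0) (hF : ∀ a b c : ℂ, cycF x y a b c = 0) :
    x 1 1 * y 2 1 - y 1 1 * x 2 1 = 0 := by
  unfold cycV at hV
  unfold cycF at hF
  linear_combination (1/3) * (y 2 1 * hx - x 2 1 * hy) + (-1/3) * (K 2 1) + (-1/3) * (hV (1) (0) (0)) + (1/6) * (hV (1) (1) (0)) + (1/6) * (hV (1) (-1) (0))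

theorem cyc_11_22 (x y : M3) (hx : x 0 0 + x 1 1 + x 2 2 = 0) (hy : y 0 0 + y 1 1 + y 2 2 = 0)
    (K : ∀ i k, x i 0 * y 0 k + x i 1 * y 1 k + x i 2 * y 2 k =
      y i 0 * x 0 k + y i 1 * x 1 k + y i 2 * x 2 k)
    (hV : ∀ a b c : ℂ, cycV x y a b c = 0) (hF : ∀ a b c : ℂ, cycF x y a b c = 0) :
    x 1 1 * y 2 2 - y 1 1 * x 2 2 = 0 := by
  unfold cycV at hV
  unfold cycF at hF
  linear_combination (-1/3) * (y 0 0 * hx - x 0 0 * hy) + (-2/3) * (y 1 1 * hx - x 1 1 * hy) + (1/6) * (hV (1) (0) (0)) + (1/6) * (hV (0) (1) (0)) + (1/6) * (hV (0) (0) (1)) + (-1/6) * (hV (1) (1) (0)) + (-1/6) * (hV (1) (0) (1)) + (-1/6) * (hV (0) (1) (1)) + (1/6) * (hV (1) (1) (1)) + (1/6) * (hF (1) (0) (0)) + (1/6) * (hF (0) (1) (0)) + (1/6) * (hF (0) (0) (1)) + (-1/6) * (hF (1) (1) (0)) + (-1/6) * (hF (1) (0) (1)) + (-1/6) * (hF (0) (1) (1)) + (1/6) * (hF (1) (1) (1))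

theorem cyc_12_20 (x y : M3) (hx : x 0 0 + x 1 1 + x 2 2 = 0) (hy : y 0 0 + y 1 1 + y 2 2 = 0)
    (K : ∀ i k, x i 0 * y 0 k + x i 1 * y 1 k + x i 2 * y 2 k =
      y i 0 * x 0 k + y i 1 * x 1 k + y i 2 * x 2 k)
    (hV : ∀ a b c : ℂ, cycV x y a b c = 0) (hF : ∀ a b c : ℂ, cycF x y a b c = 0) :
    x 1 2 * y 2 0 - y 1 2 * x 2 0 = 0 := by
  unfold cycV at hV
  unfold cycF at hF
  linear_combination (1/3) * (K 1 0) + (-1/3) * (hV (0) (0) (1)) + (1/6) * (hV (1) (0) (1)) + (-1/6) * (hV (1) (0) (-1)) + (-1/3) * (hF (0) (0) (1)) + (1/6) * (hF (0) (1) (1)) + (-1/6) * (hF (0) (1) (-1))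

theorem cyc_12_21 (x y : M3) (hx : x 0 0 + x 1 1 + x 2 2 = 0) (hy : y 0 0 + y 1 1 + y 2 2 = 0)
    (K : ∀ i k, x i 0 * y 0 k + x i 1 * y 1 k + x i 2 * y 2 k =
      y i 0 * x 0 k + y i 1 * x 1 k + y i 2 * x 2 k)
    (hV : ∀ a b c : ℂ, cycV x y a b c = 0) (hF : ∀ a b c : ℂ, cycF x y a b c = 0) :
    x 1 2 * y 2 1 - y 1 2 * x 2 1 = 0 := by
  unfold cycV at hV
  unfold cycF at hF
  linear_combination (1/3) * (K 0 0) + (2/3) * (K 1 1) + (1/6) * (hV (1) (0) (0)) + (1/6) * (hV (0) (1) (0)) + (1/6) * (hV (0) (0) (1)) + (-1/6) * (hV (1) (1) (0)) + (-1/6) * (hV (1) (0) (1)) + (-1/6) * (hV (0) (1) (1)) + (1/6) * (hV (1) (1) (1)) + (-1/6) * (hF (1) (0) (0)) + (-1/6) * (hF (0) (1) (0)) + (-1/6) * (hF (0) (0) (1)) + (1/6) * (hF (1) (1) (0)) + (1/6) * (hF (1) (0) (1)) + (1/6) * (hF (0) (1) (1)) + (-1/6) * (hF (1) (1) (1))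

theorem cyc_12_22 (x y : M3) (hx : x 0 0 + x 1 1 + x 2 2 = 0) (hy : y 0 0 + y 1 1 + y 2 2 = 0)
    (K : ∀ i k, x i 0 * y 0 k + x i 1 * y 1 k + x i 2 * y 2 k =
      y i 0 * x 0 k + y i 1 * x 1 k + y i 2 * x 2 k)
    (hV : ∀ a b c : ℂ, cycV x y a b c = 0) (hF : ∀ a b c : ℂ, cycF x y a b c = 0) :
    x 1 2 * y 2 2 - y 1 2 * x 2 2 = 0 := by
  unfold cycV at hV
  unfold cycF at hF
  linear_combination (-1/3) * (y 1 2 * hx - x 1 2 * hy) + (1/3) * (K 1 2) + (-1/3) * (hV (1) (0) (0)) + (1/6) * (hV (1) (0) (1)) + (1/6) * (hV (1) (0) (-1))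

theorem cyc_20_21 (x y : M3) (hx : x 0 0 + x 1 1 + x 2 2 = 0) (hy : y 0 0 + y 1 1 + y 2 2 = 0)
    (K : ∀ i k, x i 0 * y 0 k + x i 1 * y 1 k + x i 2 * y 2 k =
      y i 0 * x 0 k + y i 1 * x 1 k + y i 2 * x 2 k)
    (hV : ∀ a b c : ℂ, cycV x y a b c = 0) (hF : ∀ a b c : ℂ, cycF x y a b c = 0) :
    x 2 0 * y 2 1 - y 2 0 * x 2 1 = 0 := by
  unfold cycV at hV
  unfold cycF at hF
  linear_combination (1) * (hF (0) (0) (1))

theorem cyc_20_22 (x y : M3) (hx : x 0 0 + x 1 1 + x 2 2 = 0) (hy : y 0 0 + y 1 1 + y 2 2 = 0)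
    (K : ∀ i k, x i 0 * y 0 k + x i 1 * y 1 k + x i 2 * y 2 k =
      y i 0 * x 0 k + y i 1 * x 1 k + y i 2 * x 2 k)
    (hV : ∀ a b c : ℂ, cycV x y a b c = 0) (hF : ∀ a b c : ℂ, cycF x y a b c = 0) :
    x 2 0 * y 2 2 - y 2 0 * x 2 2 = 0 := by
  unfold cycV at hV
  unfold cycF at hF
  linear_combination (-1/3) * (y 2 0 * hx - x 2 0 * hy) + (-1/3) * (K 2 0) + (1/3) * (hF (0) (1) (0)) + (-1/6) * (hF (0) (1) (1)) + (-1/6) * (hF (0) (1) (-1))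

theorem cyc_21_22 (x y : M3) (hx : x 0 0 + x 1 1 + x 2 2 = 0) (hy : y 0 0 + y 1 1 + y 2 2 = 0)
    (K : ∀ i k, x i 0 * y 0 k + x i 1 * y 1 k + x i 2 * y 2 k =
      y i 0 * x 0 k + y i 1 * x 1 k + y i 2 * x 2 k)
    (hV : ∀ a b c : ℂ, cycV x y a b c = 0) (hF : ∀ a b c : ℂ, cycF x y a b c = 0) :
    x 2 1 * y 2 2 - y 2 1 * x 2 2 = 0 := by
  unfold cycV at hV
  unfold cycF at hF
  linear_combination (-1/3) * (y 2 1 * hx - x 2 1 * hy) + (-1/3) * (K 2 1) + (-1/3) * (hF (1) (0) (0)) + (1/6) * (hF (1) (0) (1)) + (1/6) * (hF (1) (0) (-1))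

theorem cyc_ : S_CYC := by
  intro x y hx hy hxy hne
  by_contra hcon
  push Not at hcon
  obtain ⟨h1, h2⟩ := hcon
  have hV : ∀ a b c : ℂ, cycV x y a b c = 0 := by
    intro a b c
    have := h1 ![a, b, c]
    rw [cev_detV_formula] at this
    exact this
  have hF : ∀ a b c : ℂ, cycF x y a b c = 0 := by
    intro a b c
    have := h2 ![a, b, c]
    rw [cev_detF_formula] at this
    exact this
  have hx' : x 0 0 + x 1 1 + x 2 2 = 0 := by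
    rw [← hx, Matrix.trace_fin_three]
  have hy' : y 0 0 + y 1 1 + y 2 2 = 0 := by
    rw [← hy, Matrix.trace_fin_three]
  have K : ∀ i k, x i 0 * y 0 k + x i 1 * y 1 k + x i 2 * y 2 k =
      y i 0 * x 0 k + y i 1 * x 1 k + y i 2 * x 2 k := by
    intro i k
    have := congrFun (congrFun hxy i) k
    rw [Matrix.mul_apply, Matrix.mul_apply, Fin.sum_univ_three, Fin.sum_univ_three] at this
    exact this
  apply hne
  have e00_01 := cyc_00_01 x y hx' hy' K hV hF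
  have e00_02 := cyc_00_02 x y hx' hy' K hV hF
  have e00_10 := cyc_00_10 x y hx' hy' K hV hF
  have e00_11 := cyc_00_11 x y hx' hy' K hV hF
  have e00_12 := cyc_00_12 x y hx' hy' K hV hF
  have e00_20 := cyc_00_20 x y hx' hy' K hV hF
  have e00_21 := cyc_00_21 x y hx' hy' K hV hF
  have e00_22 := cyc_00_22 x y hx' hy' K hV hF
  have e01_02 := cyc_01_02 x y hx' hy' K hV hF
  have e01_10 := cyc_01_10 x y hx' hy' K hV hF
  have e01_11 := cyc_01_11 x y hx' hy' K hV hF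
  have e01_12 := cyc_01_12 x y hx' hy' K hV hF
  have e01_20 := cyc_01_20 x y hx' hy' K hV hF
  have e01_21 := cyc_01_21 x y hx' hy' K hV hF
  have e01_22 := cyc_01_22 x y hx' hy' K hV hF
  have e02_10 := cyc_02_10 x y hx' hy' K hV hF
  have e02_11 := cyc_02_11 x y hx' hy' K hV hF
  have e02_12 := cyc_02_12 x y hx' hy' K hV hF
  have e02_20 := cyc_02_20 x y hx' hy' K hV hF
  have e02_21 := cyc_02_21 x y hx' hy' K hV hF
  have e02_22 := cyc_02_22 x y hx' hy' K hV hF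
  have e10_11 := cyc_10_11 x y hx' hy' K hV hF
  have e10_12 := cyc_10_12 x y hx' hy' K hV hF
  have e10_20 := cyc_10_20 x y hx' hy' K hV hF
  have e10_21 := cyc_10_21 x y hx' hy' K hV hF
  have e10_22 := cyc_10_22 x y hx' hy' K hV hF
  have e11_12 := cyc_11_12 x y hx' hy' K hV hF
  have e11_20 := cyc_11_20 x y hx' hy' K hV hF
  have e11_21 := cyc_11_21 x y hx' hy' K hV hF
  have e11_22 := cyc_11_22 x y hx' hy' K hV hF
  have e12_20 := cyc_12_20 x y hx' hy' K hV hF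
  have e12_21 := cyc_12_21 x y hx' hy' K hV hF
  have e12_22 := cyc_12_22 x y hx' hy' K hV hF
  have e20_21 := cyc_20_21 x y hx' hy' K hV hF
  have e20_22 := cyc_20_22 x y hx' hy' K hV hF
  have e21_22 := cyc_21_22 x y hx' hy' K hV hF
  funext r
  obtain ⟨⟨i, j⟩, ⟨k, l⟩⟩ := r
  simp only [wedge, Pi.zero_apply]
  fin_cases i <;> fin_cases j <;> fin_cases k <;> fin_cases l <;>
    simp only [Fin.zero_eta, Fin.mk_one, Fin.reduceFinMk, Fin.isValue] <;>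
    first
    | (ring_nf; done)
    | exact e00_01
    | (exact (by linear_combination (-1 : ℂ) * e00_01))
    | exact e00_02
    | (exact (by linear_combination (-1 : ℂ) * e00_02))
    | exact e00_10
    | (exact (by linear_combination (-1 : ℂ) * e00_10))
    | exact e00_11
    | (exact (by linear_combination (-1 : ℂ) * e00_11))
    | exact e00_12
    | (exact (by linear_combination (-1 : ℂ) * e00_12))
    | exact e00_20
    | (exact (by linear_combination (-1 : ℂ) * e00_20))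
    | exact e00_21
    | (exact (by linear_combination (-1 : ℂ) * e00_21))
    | exact e00_22
    | (exact (by linear_combination (-1 : ℂ) * e00_22))
    | exact e01_02
    | (exact (by linear_combination (-1 : ℂ) * e01_02))
    | exact e01_10
    | (exact (by linear_combination (-1 : ℂ) * e01_10))
    | exact e01_11
    | (exact (by linear_combination (-1 : ℂ) * e01_11))
    | exact e01_12
    | (exact (by linear_combination (-1 : ℂ) * e01_12))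
    | exact e01_20
    | (exact (by linear_combination (-1 : ℂ) * e01_20))
    | exact e01_21
    | (exact (by linear_combination (-1 : ℂ) * e01_21))
    | exact e01_22
    | (exact (by linear_combination (-1 : ℂ) * e01_22))
    | exact e02_10
    | (exact (by linear_combination (-1 : ℂ) * e02_10))
    | exact e02_11
    | (exact (by linear_combination (-1 : ℂ) * e02_11))
    | exact e02_12
    | (exact (by linear_combination (-1 : ℂ) * e02_12))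
    | exact e02_20
    | (exact (by linear_combination (-1 : ℂ) * e02_20))
    | exact e02_21
    | (exact (by linear_combination (-1 : ℂ) * e02_21))
    | exact e02_22
    | (exact (by linear_combination (-1 : ℂ) * e02_22))
    | exact e10_11
    | (exact (by linear_combination (-1 : ℂ) * e10_11))
    | exact e10_12
    | (exact (by linear_combination (-1 : ℂ) * e10_12))
    | exact e10_20
    | (exact (by linear_combination (-1 : ℂ) * e10_20))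
    | exact e10_21
    | (exact (by linear_combination (-1 : ℂ) * e10_21))
    | exact e10_22
    | (exact (by linear_combination (-1 : ℂ) * e10_22))
    | exact e11_12
    | (exact (by linear_combination (-1 : ℂ) * e11_12))
    | exact e11_20
    | (exact (by linear_combination (-1 : ℂ) * e11_20))
    | exact e11_21
    | (exact (by linear_combination (-1 : ℂ) * e11_21))
    | exact e11_22
    | (exact (by linear_combination (-1 : ℂ) * e11_22))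
    | exact e12_20
    | (exact (by linear_combination (-1 : ℂ) * e12_20))
    | exact e12_21
    | (exact (by linear_combination (-1 : ℂ) * e12_21))
    | exact e12_22
    | (exact (by linear_combination (-1 : ℂ) * e12_22))
    | exact e20_21
    | (exact (by linear_combination (-1 : ℂ) * e20_21))
    | exact e20_22
    | (exact (by linear_combination (-1 : ℂ) * e20_22))
    | exact e21_22
    | (exact (by linear_combination (-1 : ℂ) * e21_22))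

end Pool.Agent.T2h19.AP
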