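import Pool.Agent.T2h19.AP.Stm

set_option autoImplicit false

open MvPolynomial

namespace Pool.Agent.T2h19.AP

/-- The derivative of `F` at `z` in the direction `v`, and its chain rule for linear maps. -/
theorem tnw_chain {ι : Type} [Fintype ι] [DecidableEq ι] (w : (ι → ℂ) →ₗ[ℂ] (ι → ℂ))
    (F : MvPolynomial ι ℂ) (z v : ι → ℂ) :
    ∑ i, eval z (pderiv i (subst w F)) * v i = ∑ i, eval (w z) (pderiv i F) * (w v) i := by
  classical
  induction F using MvPolynomial.induction_on with
  | C a =>
    simp [subst, algebraMap_eq]
  | add p q hp hq =>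
    have e : subst w (p + q) = subst w p + subst w q := by simp [subst]
    simp only [e, map_add, add_mul, Finset.sum_add_distrib, hp, hq]
  | mul_X p j hp =>
    have e : subst w (p * X j) = subst w p * form (LinearMap.proj j ∘ₗ w) := by
      simp [subst]
    have h1 : ∑ i, eval z (pderiv i (form (LinearMap.proj j ∘ₗ w))) * v i = (w v) j := by
      have h2 : ∀ i, eval z (pderiv i (form (LinearMap.proj j ∘ₗ w))) =
          (w (Pi.single i 1)) j := by
        intro i
        unfold form
        rw [map_sum, map_sum, Finset.sum_eq_single i]
        · simp [pderiv_X]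
        · intro b _ hb
          simp [pderiv_X_of_ne hb]
        · intro h
          exact absurd (Finset.mem_univ i) h
      have h3 : v = ∑ i, v i • (Pi.single i (1 : ℂ) : ι → ℂ) := by
        ext k
        simp [Finset.sum_apply, Pi.single_apply]
      conv_rhs => rw [h3]
      rw [map_sum, Finset.sum_apply]
      refine Finset.sum_congr rfl fun i _ => ?_
      rw [h2, map_smul]
      simp [mul_comm]
    have h4 : ∑ i, eval (w z) (pderiv i (X j : MvPolynomial ι ℂ)) * (w v) i = (w v) j := by
      rw [Finset.sum_eq_single j]
      · simp
      · intro b _ hb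
        simp [pderiv_X_of_ne hb.symm]
      · intro h
        exact absurd (Finset.mem_univ j) h
    have h5 : ∑ i, eval z (pderiv i (subst w (p * X j))) * v i =
        eval z (subst w p) * ∑ i, eval z (pderiv i (form (LinearMap.proj j ∘ₗ w))) * v i +
        eval z (form (LinearMap.proj j ∘ₗ w)) * ∑ i, eval z (pderiv i (subst w p)) * v i := by
      rw [e, Finset.mul_sum, Finset.mul_sum, ← Finset.sum_add_distrib]
      refine Finset.sum_congr rfl fun i _ => ?_
      simp only [Derivation.leibniz, smul_eq_mul, map_add, map_mul]
      ring
    have h6 : ∑ i, eval (w z) (pderiv i (p * X j)) * (w v) i =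
        eval (w z) p * ∑ i, eval (w z) (pderiv i (X j : MvPolynomial ι ℂ)) * (w v) i +
        eval (w z) (X j) * ∑ i, eval (w z) (pderiv i p) * (w v) i := by
      rw [Finset.mul_sum, Finset.mul_sum, ← Finset.sum_add_distrib]
      refine Finset.sum_congr rfl fun i _ => ?_
      simp only [Derivation.leibniz, smul_eq_mul, map_add, map_mul]
      ring
    rw [h5, h6, h1, h4, hp, eval_form, eval_subst]
    simp

theorem tnw_ : S_TNW := by
  intro ι _ _ K hK w hw z v
  constructor
  · intro h F hF
    have h1 : subst w.symm.toLinearMap F ∈ ideal K.C := by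
      intro y hy
      rw [eval_subst]
      exact hF _ (Cells.symm_mem hK hw hy)
    have h2 := h _ h1
    have h3 := tnw_chain w.toLinearMap (subst w.symm.toLinearMap F) z v
    have h4 : subst w.toLinearMap (subst w.symm.toLinearMap F) = F := by
      apply MvPolynomial.funext
      intro y
      rw [eval_subst, eval_subst]
      simp
    rw [h4] at h3
    rw [h3]
    exact h2
  · intro h F hF
    have h1 : subst w.toLinearMap F ∈ ideal K.C := by
      intro y hy
      rw [eval_subst]
      exact hF _ ((hK.mem_iff w hw y).2 hy)
    have h2 := h _ h1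
    have h3 := tnw_chain w.toLinearMap F z v
    exact h3 ▸ h2

end Pool.Agent.T2h19.AP
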